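import Pool.Agent.H53.VK.ASM

set_option autoImplicit false

/-!
# The visibility graph conjecture when at most two lines contain more than six points

For every finite point set `P` in the plane such that at most two lines contain more than six points of
`P` (among any three collinear subsets with at least seven points, two lie on a common line), the
vertex-connectivity of the visibility graph is at least `(2 δ + 1) / 3`. Known before: no line contains more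
than four points of `P` (Payne, Por, Valtr, Wood).
-/

theorem Pool.Agent.Results.MP_5f22fc_co.TwoRichLines.result :
    ∀ (P : Finset (ℝ × ℝ)), 2 ≤ P.card →
      (∀ Q₁ Q₂ Q₃ : Finset (ℝ × ℝ), Q₁ ⊆ P → Q₂ ⊆ P → Q₃ ⊆ P →
        Collinear ℝ (Q₁ : Set (ℝ × ℝ)) → Collinear ℝ (Q₂ : Set (ℝ × ℝ)) →
        Collinear ℝ (Q₃ : Set (ℝ × ℝ)) → 7 ≤ Q₁.card → 7 ≤ Q₂.card → 7 ≤ Q₃.card →
        Collinear ℝ ((Q₁ : Set (ℝ × ℝ)) ∪ Q₂) ∨ Collinear ℝ ((Q₁ : Set (ℝ × ℝ)) ∪ Q₃) ∨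
        Collinear ℝ ((Q₂ : Set (ℝ × ℝ)) ∪ Q₃)) →
      ∀ G : SimpleGraph (ℝ × ℝ),
        (∀ p q : ℝ × ℝ, G.Adj p q ↔
          (p ∈ P ∧ q ∈ P ∧ p ≠ q ∧ ∀ r ∈ P, r ∉ openSegment ℝ p q)) →
        ∀ d : ℕ, (∀ p ∈ P, d ≤ (G.neighborSet p).ncard) →
          (2 * d + 1 ≤ 3 * (P.card - 1) ∧
            ∀ S : Finset (ℝ × ℝ), S ⊆ P → 3 * S.card < 2 * d + 1 →
              (G.induce ((P : Set (ℝ × ℝ)) \ (S : Set (ℝ × ℝ)))).Connected) :=
  VK.FIN_main VK.bounds VK.RD1_proved VK.rd4
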